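import Pool.Agent.X282.SW.Final

/-!
MP_67db61_an, Q1: for every `n ≥ 3` (so for every `n ≥ 4`) and all `l₁, l₂, s > 0`, in particular
for `l₁ ≠ l₂`, there are `α, β > 0` for which the saturated Schrödinger system on `ℝⁿ` has a fully
nontrivial solution.
-/

set_option autoImplicit false

open MeasureTheory

namespace Pool.Agent.Results.MP_67db61_an.NontrivialSolutions

open Pool.Agent.X282.SW

theorem result : ∀ n : ℕ, 3 ≤ n → ∀ l₁ l₂ s : ℝ, 0 < l₁ → 0 < l₂ → 0 < s →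
    ∃ α β : ℝ, 0 < α ∧ 0 < β ∧ ∃ u v : EuclideanSpace ℝ (Fin n) → ℝ,
      IsSol n l₁ l₂ α β s u v ∧ (¬ ∀ᵐ x, u x = 0) ∧ ¬ ∀ᵐ x, v x = 0 := by
  intro n hn l₁ l₂ s h₁ h₂ hs
  obtain ⟨N, rfl⟩ : ∃ N, n = N + 1 := ⟨n - 1, by omega⟩
  exact final N (by omega) h₁ h₂ hs

end Pool.Agent.Results.MP_67db61_an.NontrivialSolutions
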